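import Pool.Agent.MP_c69980_ag.H43.Spec1

/-!
Linear algebra over a subfield.
-/

set_option autoImplicit false

namespace Pool.Agent.MP_c69980_ag.H43

open Finset

theorem lin_mem {K : Type} [Field K] (L : Subfield K) (ι κ : Type) [Fintype ι] (A : κ → ι → K)
    (b : κ → K) (v : ι → K) (hA : ∀ x i, A x i ∈ L) (hb : ∀ x, b x ∈ L)
    (hv : ∀ x, ∑ i, v i * A x i = b x)
    (hu : ∀ v' : ι → K, (∀ x, ∑ i, v' i * A x i = 0) → v' = 0) (i : ι) : v i ∈ L := by
  obtain ⟨π, hπ⟩ := Module.Projective.exists_dual_eq_one L (one_ne_zero : (1 : K) ≠ 0)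
  have h1 : ∀ y c : K, c ∈ L → (π (y * c) : K) = π y * c := fun y c hc => by
    have : y * c = (⟨c, hc⟩ : L) • y := mul_comm y c
    rw [this, map_smul, smul_eq_mul, mul_comm]
    rfl
  have h2 := hu (fun i => v i - π (v i)) fun x => by
    have h3 : (π (b x) : K) = b x := by
      have := h1 1 (b x) (hb x)
      rwa [one_mul, hπ, OneMemClass.coe_one, one_mul] at this
    simp only [sub_mul, sum_sub_distrib, hv x]
    rw [← h3, ← hv x, map_sum, AddSubmonoidClass.coe_finsetSum, sub_eq_zero]
    exact sum_congr rfl fun i _ => h1 _ _ (hA x i)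
  rw [sub_eq_zero.1 (congrFun h2 i)]
  exact (π (v i)).2

theorem lin_cols {K : Type} [Field K] {n g : ℕ} (v : Fin n → Fin g → K)
    (hv : LinearIndependent K v) :
    ∃ J : Fin n → Fin g, IsUnit (Matrix.of fun l m => v l (J m)) := by
  have h1 : (Matrix.of v).rank = n := by
    have := LinearIndependent.rank_matrix (M := Matrix.of v) hv
    rwa [Fintype.card_fin] at this
  obtain ⟨κ, a, ha, h2, h3⟩ := exists_linearIndependent' K (Matrix.of v).col
  have : Finite κ := Finite.of_injective a ha
  have := Fintype.ofFinite κ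
  have h4 : Fintype.card κ = n := by
    rw [← finrank_span_eq_card h3, h2, ← Matrix.rank_eq_finrank_span_cols, h1]
  let e : Fin n ≃ κ := (Fintype.equivFinOfCardEq h4).symm
  exact ⟨fun m => a (e m), Matrix.linearIndependent_cols_iff_isUnit.1 (h3.comp e e.injective)⟩

theorem sLin : SLin := by
  intro K _ L
  refine ⟨lin_mem L, fun n g v hv hL => ?_⟩
  obtain ⟨J, hJ⟩ := lin_cols v hv
  have h1 := Matrix.nonsing_inv_mul _ ((Matrix.isUnit_iff_isUnit_det _).1 hJ)
  have h2 : ∀ j m, ∑ l, (Matrix.of fun l m => v l (J m))⁻¹ j l * v l (J m) =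
      if j = m then 1 else 0 := fun j m => by
    have := congrFun (congrFun h1 j) m
    rwa [Matrix.mul_apply, Matrix.one_apply] at this
  refine ⟨J, _, fun j => lin_mem L _ _ (fun m l => v l (J m)) _ _ (fun m l => hL l _)
    (fun m => ?_) (h2 j) fun w hw => ?_, h2⟩
  · split_ifs
    · exact L.one_mem
    · exact L.zero_mem
  · refine Matrix.vecMul_injective_of_isUnit hJ ?_
    funext m
    simpa [Matrix.vecMul, dotProduct] using hw m

end Pool.Agent.MP_c69980_ag.H43
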